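import Pool.Agent.N819.LT.Main

/-!
# The complex of every labelled oriented tree is a union of two aspherical parts with locally
# indicable fundamental groups

Definitions (`Pool.Agent.N819.LT.Defs`, `.Alex`, `.Main`, and `Pool.Agent.TH625.LOG.Core`, `.Tree`,
`.LI`, `.Main` of the starting library):

* `LOG V E`: a labelled oriented graph with vertices `V` and edges `E`, the edge `e` runs from `ini e` to
  `ter e` and has the label `lab e`, an arbitrary vertex; `L.rel e = x_ini x_lab x_ter⁻¹ x_lab⁻¹`; `L.G`
  is the group with generators `V` and relators `L.rel e`, the fundamental group of the 2-complex `K(L)`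
  with one vertex, 1-cells `V` and 2-cells `E`; `L.Conn`: the graph is connected (it is a tree if it has
  moreover one vertex more than edges);
* `sub L S`: only the 2-cells of `S ⊆ E` are kept (a subcomplex of `K(L)` with all the 1-cells);
* `Good L`: `L.G` is locally indicable (`LocInd`: every nontrivial finitely generated subgroup maps onto
  `ℤ`), closed diagrams in the universal covering are reducible (`Folds`), and the boundary operator
  `C₂ → C₁` of the universal covering is injective, i.e. the complex is aspherical;
* `Conn p q`: the graph on `V` with the edges `{p e, q e}`, `e : E`, is connected; with one vertex more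
  than edges it is then a tree;
* `Mixed L S`: the edges `{ini e, lab e}`, `e ∈ S`, and `{ter e, lab e}`, `e ∉ S`, form a tree;
* `alexM L r σ`: the Alexander matrix modulo two (rows: edges, columns: vertices, numbered by `σ`), with
  one more row, the unit vector of `r`; its determinant is the Alexander polynomial modulo two;
* `L.ContractibleWith v`: `K(L) ∪ f` is contractible, where the 2-cell `f` is attached along the
  1-cell `v`.
-/

set_option autoImplicit false

namespace Pool.Agent.Results.MP_cf50d6_gt.UnionOfTwoParts

open Pool.Agent.TH625.LOG Pool.Agent.N819.LT

/-- Let `L` be a labelled oriented tree, so that `K(L)` is a subcomplex of a contractible 2-complex with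
one more 2-cell (last part). The number of the sets `S` of 2-cells with `Mixed L S` is odd, in
particular there is one; more precisely the number of these `S` with `j` elements in the complement is
congruent modulo two to the coefficient of `t ^ j` of the Alexander polynomial. If `S` is such a set
then all the subcomplexes of the two parts `K(S)` and `K(Sᶜ)`, whose union is `K(L)`, have locally
indicable fundamental groups and are aspherical. -/
theorem result (V E : Type) [Fintype V] [Fintype E] [DecidableEq V] [DecidableEq E] (L : LOG V E)
    (hL : L.Conn) (hcard : Fintype.card V = Fintype.card E + 1) :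
    Odd {S : Set E | Mixed L S}.ncard ∧
    (∀ (r : V) (σ : V ≃ Option E) (j : ℕ),
      ({S : Set E | Sᶜ.ncard = j ∧ Mixed L S}.ncard : ZMod 2) =
        (alexM L r σ).det.coeff j) ∧
    (∀ S : Set E, Mixed L S → ∀ S' : Set E, (S' ⊆ S ∨ S' ⊆ Sᶜ) → Good (sub L S')) ∧
    ∀ v : V, L.ContractibleWith v :=
  ⟨parityL0 L hL hcard, fun r σ j => coeffL' L r σ j,
    fun S hS S' h => good_mixed L hcard S hS S' h,
    fun v => contractibleWith L hL hcard v⟩

end Pool.Agent.Results.MP_cf50d6_gt.UnionOfTwoParts
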