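import Pool.Agent.N819.UD.Tor

/-!
# Labelled oriented trees with exactly one spanning decomposition have locally indicable groups

Definitions (`Pool.Agent.N819.UD.Stm`, `.Tor`, `Pool.Agent.N819.LT.Defs`, `.MT`, and
`Pool.Agent.TH625.LOG.Core`, `.Tree`, `.LI`, `.Main` of the starting library):

* `LOG V E`: a labelled oriented graph with vertices `V` and edges `E`, the edge `e` runs from `ini e` to
  `ter e` and has the label `lab e`, an arbitrary vertex; `L.rel e = x_ini x_lab x_ter⁻¹ x_lab⁻¹`; `L.G`
  is the group with generators `V` (`L.gen v`) and relators `L.rel e`, the fundamental group of the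
  2-complex `K(L)` with one vertex, 1-cells `V` and 2-cells `E`; `L.Conn`: the graph is connected (it is
  a tree if it has moreover one vertex more than edges);
* `sub L R`: only the 2-cells of `R ⊆ E` are kept (a subcomplex of `K(L)` with all the 1-cells; it is
  `K(L)` for `R = Set.univ`);
* `LocInd G`: every nontrivial finitely generated subgroup of `G` maps onto `ℤ`;
* `Conn p q`: the graph on `V` with the edges `{p e, q e}`, `e : E`, is connected; with one vertex more
  than edges it is then a tree;
* `Mix p q lab S`: the graph with the edges `{p e, lab e}`, `e ∈ S`, and `{q e, lab e}`, `e ∉ S`, is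
  connected (so a tree);
* `Spans p lab S`: every set of vertices which is a union of components of the graph with the edges
  `{p e, lab e}`, `e ∈ S`, is a union of components of the graph with the edges `{p e, lab e}`, `e : E`;
  that is, the two graphs have the same components;
* `MT φ`: the mapping torus `⟨X, t | t⁻¹ w t = φ w⟩` of an endomorphism `φ` of the free group on `X`;
  `IsTor L r S`: for an endomorphism `φ` of the free group on `S` there is an isomorphism of `L.G` with
  `MT φ` which maps `x_r` to `t` and `x_lab⁻¹ x_ini` to the basis element `b`, for every `b ∈ S`;
* `L.ContractibleWith v`: `K(L) ∪ f` is contractible, where the 2-cell `f` is attached along the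
  1-cell `v`.
-/

set_option autoImplicit false

namespace Pool.Agent.Results.MP_cf50d6_gt.UniqueSpanningDecomposition

open Pool.Agent.TH625.LOG Pool.Agent.N819.LT Pool.Agent.N819.UD

/-- Let `L` be a labelled oriented tree, so that `K(L)` is a subcomplex of a contractible 2-complex with
one more 2-cell (last part). A set `S` of edges is a spanning decomposition if the edges
`{initial vertex, label}` of the elements of `S` and the edges `{terminal vertex, label}` of the other
elements form a tree and if the former have the same components as the graph of all the edges
`{initial vertex, label}`. If `L` has exactly one spanning decomposition, or if this holds after the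
exchange of the initial and the terminal vertices, then all subcomplexes of `K(L)` have locally
indicable fundamental groups. If `S` is the only spanning decomposition, then the fundamental group of
`K(L)` is the mapping torus of an endomorphism of the free group with basis `S`. There is exactly one
spanning decomposition if the initial graph is a tree. -/
theorem result (V E : Type) [Fintype V] [Fintype E] [DecidableEq V] [DecidableEq E] (L : LOG V E)
    (hL : L.Conn) (hcard : Fintype.card V = Fintype.card E + 1) :
    (((∃! S : Set E, Mix L.ini L.ter L.lab S ∧ Spans L.ini L.lab S) ∨
        (∃! S : Set E, Mix L.ter L.ini L.lab S ∧ Spans L.ter L.lab S)) →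
      ∀ R : Set E, LocInd (sub L R).G) ∧
    (∀ S : Set E, Mix L.ini L.ter L.lab S ∧ Spans L.ini L.lab S →
      (∀ S' : Set E, Mix L.ini L.ter L.lab S' ∧ Spans L.ini L.lab S' → S' = S) →
        ∀ r : V, IsTor L r S) ∧
    (Conn L.ini L.lab → ∃! S : Set E, Mix L.ini L.ter L.lab S ∧ Spans L.ini L.lab S) ∧
    (Conn L.ter L.lab → ∃! S : Set E, Mix L.ter L.ini L.lab S ∧ Spans L.ter L.lab S) ∧
    ∀ v : V, L.ContractibleWith v :=
  ⟨fun h R => h.elim (fun h => li_ini L hcard h R) (fun h => li_ter L hcard h R),
    fun S hS hu r => tor L hcard ⟨S, hS, hu⟩ r S hS,
    unique_of_tree L.ini L.ter L.lab hcard, unique_of_tree L.ter L.ini L.lab hcard,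
    fun v => contractibleWith L hL hcard v⟩

end Pool.Agent.Results.MP_cf50d6_gt.UniqueSpanningDecomposition
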